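import Pool.Agent.H111R5.HM.Stmts

set_option autoImplicit false

open Finset

namespace Pool.Agent.H12R3.HM

open Pool.Agent.H111R5.HM

variable {V : Type} [Fintype V]

theorem mem_prs (G : SimpleGraph V) (A B : Finset V) (p : V × V) :
    p ∈ prs G A B ↔ p.1 ∈ A ∧ p.2 ∈ B ∧ G.Adj p.1 p.2 := by
  unfold prs
  simp only [mem_filter, mem_product]
  tauto

open Classical in
theorem card_nbr (G : SimpleGraph V) (a : V) :
    Nat.card (G.neighborSet a) = (univ.filter (fun b => G.Adj a b)).card := by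
  rw [Nat.card_eq_fintype_card, ← Set.toFinset_card]
  congr 1
  ext b
  simp

theorem card_prs_univ (G : SimpleGraph V) (S : Finset V) :
    (prs G S univ).card = ∑ a ∈ S, Nat.card (G.neighborSet a) := by
  classical
  rw [Finset.card_eq_sum_card_fiberwise (f := Prod.fst) (t := S)]
  · apply Finset.sum_congr rfl
    intro a ha
    rw [card_nbr]
    symm
    apply Finset.card_bij (fun b _ => (a, b))
    · intro b hb
      rw [mem_filter] at hb ⊢
      refine ⟨(mem_prs _ _ _ _).2 ⟨ha, mem_univ _, hb.2⟩, rfl⟩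
    · intro b _ c _ h
      simpa using h
    · intro p hp
      rw [mem_filter, mem_prs] at hp
      obtain ⟨⟨h1, h2, h3⟩, h4⟩ := hp
      subst h4
      exact ⟨p.2, by simpa using h3, rfl⟩
  · intro p hp
    exact ((mem_prs _ _ _ _).1 hp).1

theorem card_prs_const (G : SimpleGraph V) (S : Finset V) (k : ℕ)
    (hk : ∀ a ∈ S, Nat.card (G.neighborSet a) = k) : (prs G S univ).card = S.card * k := by
  rw [card_prs_univ, Finset.sum_congr rfl hk, Finset.sum_const, smul_eq_mul]

theorem card_prs_swap (G : SimpleGraph V) (A B : Finset V) :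
    (prs G A B).card = (prs G B A).card := by
  classical
  apply Finset.card_bij (fun p _ => p.swap)
  · intro p hp
    rw [mem_prs] at hp ⊢
    exact ⟨hp.2.1, hp.1, hp.2.2.symm⟩
  · intro p _ q _ h
    exact Prod.swap_injective h
  · intro p hp
    rw [mem_prs] at hp
    exact ⟨p.swap, (mem_prs _ _ _ _).2 ⟨hp.2.1, hp.1, hp.2.2.symm⟩, rfl⟩

theorem prs_mono (G : SimpleGraph V) {A B A' B' : Finset V} (hA : A ⊆ A') (hB : B ⊆ B') :
    (prs G A B).card ≤ (prs G A' B').card := by
  apply Finset.card_le_card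
  intro p hp
  rw [mem_prs] at hp ⊢
  exact ⟨hA hp.1, hB hp.2.1, hp.2.2⟩

open Classical in
/-- the number of partners `(x, y)` of an edge `(u, v)` -/
theorem partners (G : SimpleGraph V) (d : V → ℕ) (L H : Finset V) (D : ℕ)
    (hLH : ∀ a, a ∈ L ∨ a ∈ H) (hL : ∀ v ∈ L, d v = 3) (hH : ∀ v ∈ H, d v = D) (hG : G ∈ Gs d)
    (u v : V) (hu : u ∈ L) (hv : v ∈ L) :
    D * H.card - (3 * L.card + 6 * D) ≤
      ((prs G H H).filter (fun q => ¬ G.Adj u q.1 ∧ ¬ G.Adj v q.2)).card := by
  have hdL : ∀ a ∈ L, Nat.card (G.neighborSet a) = 3 := fun a ha => (hG a).trans (hL a ha)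
  have hdH : ∀ a ∈ H, Nat.card (G.neighborSet a) = D := fun a ha => (hG a).trans (hH a ha)
  have h1 : (prs G H univ).card = H.card * D := card_prs_const G H D hdH
  have h2 : (prs G H univ).card ≤ (prs G H H).card + (prs G H L).card := by
    refine (Finset.card_le_card ?_).trans (Finset.card_union_le _ _)
    intro p hp
    rw [mem_prs] at hp
    rw [mem_union, mem_prs, mem_prs]
    rcases hLH p.2 with h | h
    · right; exact ⟨hp.1, h, hp.2.2⟩
    · left; exact ⟨hp.1, h, hp.2.2⟩
  have h3 : (prs G H L).card ≤ L.card * 3 := by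
    rw [card_prs_swap, ← card_prs_const G L 3 hdL]
    exact prs_mono G (Finset.Subset.refl _) (subset_univ _)
  -- bad pairs
  have hbad : ∀ w ∈ L, (prs G (univ.filter (fun b => G.Adj w b) ∩ H) H).card ≤ 3 * D := by
    intro w hw
    have e1 : (prs G (univ.filter (fun b => G.Adj w b) ∩ H) H).card ≤
        (prs G (univ.filter (fun b => G.Adj w b) ∩ H) univ).card :=
      prs_mono G (Finset.Subset.refl _) (subset_univ _)
    rw [card_prs_const G _ D (fun a ha => hdH a (mem_inter.1 ha).2)] at e1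
    have e2 : (univ.filter (fun b => G.Adj w b) ∩ H).card ≤ 3 := by
      rw [← hdL w hw, card_nbr]
      exact Finset.card_le_card inter_subset_left
    exact e1.trans (Nat.mul_le_mul_right _ e2)
  have h4 : (prs G H H).card ≤
      ((prs G H H).filter (fun q => ¬ G.Adj u q.1 ∧ ¬ G.Adj v q.2)).card + (3 * D + 3 * D) := by
    have e1 : prs G H H ⊆ (prs G H H).filter (fun q => ¬ G.Adj u q.1 ∧ ¬ G.Adj v q.2) ∪
        (prs G (univ.filter (fun b => G.Adj u b) ∩ H) H ∪
         prs G H (univ.filter (fun b => G.Adj v b) ∩ H)) := by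
      intro q hq
      have hq' := (mem_prs _ _ _ _).1 hq
      by_cases c1 : G.Adj u q.1
      · refine mem_union_right _ (mem_union_left _ ((mem_prs _ _ _ _).2 ?_))
        exact ⟨mem_inter.2 ⟨by simpa using c1, hq'.1⟩, hq'.2.1, hq'.2.2⟩
      · by_cases c2 : G.Adj v q.2
        · refine mem_union_right _ (mem_union_right _ ((mem_prs _ _ _ _).2 ?_))
          exact ⟨hq'.1, mem_inter.2 ⟨by simpa using c2, hq'.2.1⟩, hq'.2.2⟩
        · exact mem_union_left _ (mem_filter.2 ⟨hq, c1, c2⟩)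
    refine (Finset.card_le_card e1).trans ((Finset.card_union_le _ _).trans ?_)
    refine Nat.add_le_add_left ((Finset.card_union_le _ _).trans ?_) _
    refine Nat.add_le_add (hbad u hu) ?_
    rw [card_prs_swap]
    exact hbad v hv
  have h5 : H.card * D = D * H.card := Nat.mul_comm _ _
  omega

open Classical in
theorem taskCount : TaskCount := by
  intro hsw V _ _ d L H D M A hdis hLH hL hH hA hM
  have finG : Finite (SimpleGraph V) := inferInstance
  set 𝒜 : Finset (SimpleGraph V) := A.toFinite.toFinset with h𝒜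
  set 𝒢 : Finset (SimpleGraph V) := (Gs d).toFinite.toFinset with h𝒢
  have hA1 : A.ncard = 𝒜.card := Set.ncard_eq_toFinset_card A
  have hG1 : (Gs d).ncard = 𝒢.card := Set.ncard_eq_toFinset_card (Gs d)
  let Q : Finset ((V × V) × (V × V)) := (L ×ˢ L) ×ˢ (H ×ˢ H)
  let S : Finset (Σ _ : SimpleGraph V, (V × V) × (V × V)) :=
    𝒜.sigma (fun G => Q.filter (fun q => Ok G q.1.1 q.1.2 q.2.1 q.2.2))
  let T : Finset (Σ _ : SimpleGraph V, (V × V) × (V × V)) :=
    𝒢.sigma (fun G => Q.filter (fun q => G.Adj q.1.1 q.2.1 ∧ G.Adj q.1.2 q.2.2))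
  have hST : S.card ≤ T.card := by
    apply Finset.card_le_card_of_injOn
      (fun t => (⟨sw t.1 t.2.1.1 t.2.1.2 t.2.2.1 t.2.2.2, t.2⟩ :
        Σ _ : SimpleGraph V, (V × V) × (V × V)))
    · intro t ht
      have ht' : t ∈ S := ht
      rw [Finset.mem_sigma, mem_filter] at ht'
      obtain ⟨h1, h2, h3⟩ := ht'
      have hGd : t.1 ∈ Gs d := hA ((Set.Finite.mem_toFinset _).1 h1)
      obtain ⟨k1, k2, k3⟩ := (hsw V t.2.1.1 t.2.1.2 t.2.2.1 t.2.2.2).1 t.1 h3
      change _ ∈ T
      rw [Finset.mem_sigma, mem_filter]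
      refine ⟨?_, h2, k2, k3⟩
      rw [h𝒢, Set.Finite.mem_toFinset]
      intro a
      rw [k1 a]
      exact hGd a
    · intro t ht t' ht' h
      have ht1 : t ∈ S := ht
      have ht2 : t' ∈ S := ht'
      rw [Finset.mem_sigma, mem_filter] at ht1 ht2
      obtain ⟨G, q⟩ := t
      obtain ⟨G', q'⟩ := t'
      simp only [Sigma.mk.injEq, heq_eq_eq] at h
      obtain ⟨hg, rfl⟩ := h
      have := (hsw V q.1.1 q.1.2 q.2.1 q.2.2).2 G G' ht1.2.2 ht2.2.2 hg
      rw [this]
  have hS : A.ncard * (M * (D * H.card - (3 * L.card + 6 * D))) ≤ S.card := by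
    rw [hA1, Finset.card_sigma, ← smul_eq_mul, ← Finset.sum_const]
    apply Finset.sum_le_sum
    intro G hG
    have hGA : G ∈ A := (Set.Finite.mem_toFinset _).1 hG
    have hGd := hA hGA
    let S' : Finset (Σ _ : V × V, V × V) := (prs G L L).sigma
      (fun p => (prs G H H).filter (fun q => ¬ G.Adj p.1 q.1 ∧ ¬ G.Adj p.2 q.2))
    have h1 : M * (D * H.card - (3 * L.card + 6 * D)) ≤ S'.card := by
      refine (Nat.mul_le_mul_right _ (hM G hGA)).trans ?_
      rw [Finset.card_sigma, ← smul_eq_mul, ← Finset.sum_const]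
      apply Finset.sum_le_sum
      intro p hp
      rw [mem_prs] at hp
      have hLH' : ∀ a, a ∈ L ∨ a ∈ H := by
        intro a
        rw [← mem_union, hLH]
        exact mem_univ a
      exact partners G d L H D hLH' hL hH hGd p.1 p.2 hp.1 hp.2.1
    refine h1.trans ?_
    apply Finset.card_le_card_of_injOn (fun t => (t.1, t.2))
    · intro t ht
      have ht' : t ∈ S' := ht
      rw [Finset.mem_sigma, mem_filter, mem_prs, mem_prs] at ht'
      obtain ⟨⟨a1, a2, a3⟩, ⟨b1, b2, b3⟩, c1, c2⟩ := ht'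
      have hne : ∀ a b, a ∈ L → b ∈ H → a ≠ b := by
        rintro a b ha hb rfl
        exact Finset.disjoint_left.1 hdis ha hb
      change _ ∈ Q.filter _
      rw [mem_filter]
      refine ⟨?_, ?_⟩
      · simp only [Q, mem_product]
        exact ⟨⟨a1, a2⟩, b1, b2⟩
      · exact ⟨a3, b3, c1, c2, hne _ _ a1 b1, hne _ _ a1 b2, hne _ _ a2 b1, hne _ _ a2 b2⟩
    · intro t _ t' _ h
      obtain ⟨p, q⟩ := t
      obtain ⟨p', q'⟩ := t'
      simp only [Prod.mk.injEq] at h
      obtain ⟨rfl, rfl⟩ := h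
      rfl
  have hT : T.card ≤ (Gs d).ncard * (9 * L.card ^ 2) := by
    rw [hG1, Finset.card_sigma, ← smul_eq_mul, ← Finset.sum_const]
    apply Finset.sum_le_sum
    intro G hG
    have hGd : G ∈ Gs d := (Set.Finite.mem_toFinset _).1 hG
    have h1 : (prs G L H).card ≤ L.card * 3 := by
      rw [← card_prs_const G L 3 (fun a ha => (hGd a).trans (hL a ha))]
      exact prs_mono G (Finset.Subset.refl _) (subset_univ _)
    have h2 : (Q.filter (fun q => G.Adj q.1.1 q.2.1 ∧ G.Adj q.1.2 q.2.2)).card ≤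
        (prs G L H ×ˢ prs G L H).card := by
      apply Finset.card_le_card_of_injOn (fun q => ((q.1.1, q.2.1), (q.1.2, q.2.2)))
      · intro q hq
        have hq' : q ∈ Q.filter (fun q => G.Adj q.1.1 q.2.1 ∧ G.Adj q.1.2 q.2.2) := hq
        rw [mem_filter] at hq'
        obtain ⟨h3, h4, h5⟩ := hq'
        simp only [Q, mem_product] at h3
        change _ ∈ prs G L H ×ˢ prs G L H
        rw [mem_product, mem_prs, mem_prs]
        exact ⟨⟨h3.1.1, h3.2.1, h4⟩, h3.1.2, h3.2.2, h5⟩
      · rintro ⟨⟨a, b⟩, c, e⟩ _ ⟨⟨a', b'⟩, c', e'⟩ _ h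
        simp only [Prod.mk.injEq] at h
        obtain ⟨⟨rfl, rfl⟩, rfl, rfl⟩ := h
        rfl
    refine h2.trans ?_
    rw [Finset.card_product]
    calc (prs G L H).card * (prs G L H).card ≤ (L.card * 3) * (L.card * 3) :=
          Nat.mul_le_mul h1 h1
      _ = 9 * L.card ^ 2 := by ring
  exact hS.trans (hST.trans hT)

end Pool.Agent.H12R3.HM
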